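import Pool.Agent.R926.SC.Induced

set_option autoImplicit false
set_option linter.unusedSectionVars false

/-! # Contraction of short pieces, deletion of few pieces: the cycle space -/

namespace Pool.Agent.K3h16.SC

open Finset Pool.Agent.TH676.Z Pool.Agent.Y335.FL Module Pool.Agent.R926.SC

variable {V E : Type} [Fintype V] [DecidableEq V] [Fintype E] [DecidableEq E]

/-- the edge sets which are built from the empty set by adding, again and again, at most eleven
edges which have no bridge modulo the set built before -/
inductive Built (src dst : E → V) : Finset E → Prop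
  | empty : Built src dst ∅
  | step (F C : Finset E) : Built src dst F → C.card ≤ 11 → BrM src dst F C →
      Built src dst (F ∪ C)

theorem built_flow (hc : St_contract) (hx : St_circEx) {src dst : E → V} {F : Finset E}
    (hF : Built src dst F) : FlowOn src dst ∅ F → FlowOn src dst ∅ ∅ := by
  induction hF with
  | empty => exact id
  | step F C _ hC hB ih => exact fun h => ih (trailC hc hx src dst _ F C hB rfl hC h)

theorem built_fold {src dst : E → V} {F : Finset E} (hF : Built src dst F)
    (T : Finset (E → ZMod 2))
    (hT : ∀ x ∈ T, (∀ v, bd2 src dst x v = 0) ∧ (spt x).card ≤ 11) :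
    Built src dst (F ∪ T.biUnion spt) := by
  classical
  induction T using Finset.induction_on with
  | empty => simpa using hF
  | insert x T hxT ih =>
    have h1 := ih (fun y hy => hT y (mem_insert_of_mem hy))
    have h2 := Built.step _ (spt x \ (F ∪ T.biUnion spt)) h1
      ((card_le_card sdiff_subset).trans (hT x (mem_insert_self _ _)).2)
      (spt_br src dst x (hT x (mem_insert_self _ _)).1 _)
    have h3 : (F ∪ T.biUnion spt) ∪ (spt x \ (F ∪ T.biUnion spt)) =
        F ∪ (insert x T).biUnion spt := by
      rw [biUnion_insert]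
      ext a
      simp only [mem_union, mem_sdiff]
      tauto
    rwa [h3] at h2

theorem bd2_eq (src dst : E → V) (x : E → ZMod 2) (v : V) : bd2 src dst x v =
    ∑ e, x e * ((if src e = v then 1 else 0) + (if dst e = v then 1 else 0)) := by
  unfold bd2
  refine sum_congr rfl fun e _ => ?_
  rw [mul_add]
  congr 1
  · by_cases h : src e = v
    · rw [if_pos h, if_pos h, mul_one]
    · rw [if_neg h, if_neg h, mul_zero]
  · by_cases h : dst e = v
    · rw [if_pos h, if_pos h, mul_one]
    · rw [if_neg h, if_neg h, mul_zero]

/-- the dimension of the cycle space of the quotient, outside a closed set `X` of vertices -/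
theorem dim_qX {src dst : E → V} {F : Finset E} {r : V → V} (X : Finset V)
    (hX : Disjoint (crs src dst X) F)
    (h4 : ∀ y : E → ZMod 2, (∀ v, bd2 (r ∘ src) (r ∘ dst) y v = 0) →
      ∃ x : E → ZMod 2, (∀ v, bd2 src dst x v = 0) ∧ ∀ e, e ∉ F → x e = y e)
    (T : Submodule (ZMod 2) (E → ZMod 2))
    (hT : T ≤ ZF src dst (ES src dst X)) (hTF : ∀ x ∈ T, ∀ e, e ∉ F → x e = 0) :
    finrank (ZMod 2) (ZF (qs src F r) (qd dst F r)
        (ES (qs src F r) (qd dst F r) (X.image r))) + finrank (ZMod 2) T ≤
      finrank (ZMod 2) (ZF src dst (ES src dst X)) := by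
  set Z := ZF src dst (ES src dst X) with hZ
  set Z' := ZF (qs src F r) (qd dst F r) (ES (qs src F r) (qd dst F r) (X.image r)) with hZ'
  have hle : Z' ≤ LinearMap.range ((res F).domRestrict Z) := by
    intro y' hy'
    obtain ⟨hy1, hy2⟩ := hy'
    set y : E → ZMod 2 := fun e => if h : e ∉ F then y' ⟨e, h⟩ else 0 with hy
    have hg1 : ∀ e : {e : E // e ∉ F}, y e.1 = y' e := by
      intro e
      simp only [hy, dif_pos e.2]
    have hg2 : ∀ e ∈ F, y e = 0 := by
      intro e he
      simp only [hy]
      rw [dif_neg (fun h => h he)]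
    have hb : ∀ v, bd2 (r ∘ src) (r ∘ dst) y v = 0 := by
      intro v
      refine Eq.trans ?_ (hy2 v)
      unfold bd2
      rw [sum_off F]
      · refine sum_congr rfl fun e _ => ?_
        rw [hg1]
        rfl
      · intro e he
        simp [hg2 e he]
    have hz : ∀ e (he : e ∉ F), e ∉ ES src dst X → y' ⟨e, he⟩ = 0 := by
      intro e heF he
      apply hy1
      intro h
      apply he
      unfold ES at h ⊢
      rw [mem_filter] at h ⊢
      obtain ⟨-, a1, a2, a3⟩ := h
      refine ⟨mem_univ _, fun h => a1 ?_, fun h => a2 ?_, fun h => a3 ?_⟩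
      · simp only [qs, qd, h]
      · exact mem_image_of_mem r h
      · exact mem_image_of_mem r h
    obtain ⟨x, hx, hxy⟩ := h4 y hb
    set x' : E → ZMod 2 := fun e => if e ∈ ES src dst X then x e else 0 with hx'
    have hxZ : x' ∈ Z := by
      refine ⟨fun e he => by simp [hx', he], fun v => ?_⟩
      by_cases hv : v ∈ X
      · rw [bd2_eq]
        refine sum_eq_zero fun e _ => ?_
        by_cases he : e ∈ ES src dst X
        · unfold ES at he
          rw [mem_filter] at he
          obtain ⟨-, -, a2, a3⟩ := he
          have b1 : src e ≠ v := fun h => a2 (h ▸ hv)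
          have b2 : dst e ≠ v := fun h => a3 (h ▸ hv)
          simp [b1, b2]
        · simp [hx', he]
      · rw [← hx v, bd2_eq, bd2_eq]
        refine sum_congr rfl fun e _ => ?_
        by_cases he : e ∈ ES src dst X
        · simp [hx', he]
        · have e1 : x' e = 0 := by simp [hx', he]
          rw [e1, zero_mul]
          symm
          by_cases hl : src e = dst e
          · rw [hl]
            have : ∀ a : ZMod 2, a + a = 0 := fun a => CharTwo.add_self_eq_zero a
            rw [this, mul_zero]
          · by_cases hs : src e = v ∨ dst e = v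
            · -- the edge leaves `X`
              have hcr : e ∈ crs src dst X := by
                rw [mem_crs]
                intro hiff
                apply he
                unfold ES
                rw [mem_filter]
                refine ⟨mem_univ _, hl, ?_⟩
                rcases hs with hs | hs
                · have h7 : src e ∉ X := by rw [hs]; exact hv
                  exact ⟨h7, fun h => h7 (hiff.2 h)⟩
                · have h7 : dst e ∉ X := by rw [hs]; exact hv
                  exact ⟨fun h => h7 (hiff.1 h), h7⟩
              have heF : e ∉ F := fun h => (disjoint_left.1 hX) hcr h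
              rw [hxy e heF, hg1 ⟨e, heF⟩, hz e heF he, zero_mul]
            · rw [not_or] at hs
              simp [hs.1, hs.2]
    refine ⟨⟨x', hxZ⟩, ?_⟩
    funext e
    change x' e.1 = y' e
    by_cases he : e.1 ∈ ES src dst X
    · simp only [hx', if_pos he]
      rw [hxy e.1 e.2, hg1]
    · simp only [hx', if_neg he]
      exact (hz e.1 e.2 he).symm
  have h5 := LinearMap.finrank_range_add_finrank_ker ((res F).domRestrict Z)
  have h6 : finrank (ZMod 2) Z' ≤ finrank (ZMod 2) (LinearMap.range ((res F).domRestrict Z)) :=
    Submodule.finrank_mono hle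
  have h7 : finrank (ZMod 2) T ≤
      finrank (ZMod 2) (LinearMap.ker ((res F).domRestrict Z)) := by
    rw [← Submodule.finrank_map_subtype_eq Z (LinearMap.ker ((res F).domRestrict Z))]
    refine Submodule.finrank_mono ?_
    intro x hx
    refine ⟨⟨x, hT hx⟩, ?_, rfl⟩
    rw [SetLike.mem_coe, LinearMap.mem_ker]
    funext e
    exact hTF x hx e.1 e.2
  omega

/-- the general statement -/
theorem general (hc : St_contract) (hx : St_circEx) (hcy : St_cyc) (src dst : E → V)
    (F : Finset E) (hF : Built src dst F) (X : Finset V) (hX : Disjoint (crs src dst X) F)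
    (hdim : finrank (ZMod 2) (ZF src dst (ES src dst X)) +
      2 * (X.image (comp src dst F)).card ≤
        63 + finrank (ZMod 2) (ZF src dst (F ∩ ES src dst X)))
    (hb : Br src dst ∅ ∅) : FlowOn src dst ∅ ∅ := by
  classical
  refine built_flow hc hx hF ?_
  obtain ⟨r, h1, h2, h3, h4⟩ := quotC src dst F
  have hr : ∀ x y, r x = r y ↔ y ∈ comp src dst F x := by
    intro x y
    constructor
    · intro h
      have hd : Disjoint (crs src dst (comp src dst F x)) F := by
        rw [disjoint_left]
        intro e he heF
        rw [mem_crs] at he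
        apply he
        rw [mem_comp, mem_comp]
        have h5 : Relation.EqvGen (fun a b => ∃ e ∈ F, src e = a ∧ dst e = b) (src e) (dst e) :=
          Relation.EqvGen.rel _ _ ⟨e, heF, rfl, rfl⟩
        exact ⟨fun h => h.trans _ _ _ h5, fun h => h.trans _ _ _ (h5.symm _ _)⟩
      exact (h3 _ hd x y h).1 ((mem_comp src dst F x x).mpr (Relation.EqvGen.refl _))
    · intro h
      rw [mem_comp] at h
      induction h with
      | rel a b hab =>
        obtain ⟨e, he, rfl, rfl⟩ := hab
        exact h1 e he
      | refl a => rfl
      | symm a b _ ih => exact ih.symm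
      | trans a b c _ _ i1 i2 => exact i1.trans i2
  have hcard : (X.image r).card ≤ (X.image (comp src dst F)).card := by
    refine card_le_card_of_injOn (fun w => univ.filter (fun x => r x = w)) ?_ ?_
    · intro w hw
      rw [mem_coe, mem_image] at hw
      obtain ⟨x, hx, rfl⟩ := hw
      rw [mem_coe, mem_image]
      refine ⟨x, hx, ?_⟩
      ext y
      rw [← hr, mem_filter]
      simp only [mem_univ, true_and]
      exact eq_comm
    · intro w hw w' hw' h
      rw [mem_coe, mem_image] at hw
      obtain ⟨x, hx, rfl⟩ := hw
      have h8 : x ∈ univ.filter (fun y => r y = r x) := by simp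
      beta_reduce at h
      rw [h] at h8
      exact (mem_filter.mp h8).2
  have h5 := dim_qX (r := r) X hX h4 (ZF src dst (F ∩ ES src dst X))
    (fun x hx => ⟨fun e he => hx.1 e (fun h => he (mem_inter.mp h).2), hx.2⟩)
    (fun x hx e he => hx.1 e (fun h => he (mem_inter.mp h).1))
  have h6 := hcy V {e : E // e ∉ F} (qs src F r) (qd dst F r) (X.image r) (by omega) (br_q h1 hb)
  have h7 := h2 F (flow_q h6)
  rwa [union_self] at h7

/-- the components inside a closed set do not change if edges outside are added -/
theorem comp_congr {src dst : E → V} {F F' : Finset E} {X : Finset V} (hFF : F ⊆ F')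
    (hX : Disjoint (crs src dst X) F') (h : ∀ e ∈ F', src e ∈ X → e ∈ F) {x : V} (hxX : x ∈ X) :
    comp src dst F' x = comp src dst F x := by
  ext y
  rw [mem_comp, mem_comp]
  constructor
  · intro hy
    have key : ∀ a b, Relation.EqvGen (fun a b => ∃ e ∈ F', src e = a ∧ dst e = b) a b →
        (a ∈ X ↔ b ∈ X) ∧ (a ∈ X →
          Relation.EqvGen (fun a b => ∃ e ∈ F, src e = a ∧ dst e = b) a b) := by
      intro a b hab
      induction hab with
      | rel a b hab =>
        obtain ⟨e, he, rfl, rfl⟩ := hab
        refine ⟨?_, fun hs => Relation.EqvGen.rel _ _ ⟨e, h e he hs, rfl, rfl⟩⟩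
        by_contra hcon
        exact (disjoint_left.1 hX) ((mem_crs src dst X e).2 hcon) he
      | refl a => exact ⟨Iff.rfl, fun _ => Relation.EqvGen.refl _⟩
      | symm a b _ ih => exact ⟨ih.1.symm, fun hb => (ih.2 (ih.1.2 hb)).symm _ _⟩
      | trans a b c _ _ i1 i2 =>
        exact ⟨i1.1.trans i2.1, fun ha => (i1.2 ha).trans _ _ _ (i2.2 (i1.1.1 ha))⟩
    exact (key x y hy).2 hxX
  · intro hy
    clear hxX
    induction hy with
    | rel a b hab =>
      obtain ⟨e, he, h1, h2⟩ := hab
      exact Relation.EqvGen.rel _ _ ⟨e, hFF he, h1, h2⟩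
    | refl a => exact Relation.EqvGen.refl _
    | symm a b _ ih => exact ih.symm _ _
    | trans a b c _ _ i1 i2 => exact i1.trans _ _ _ i2

/-- short elements of the cycle space outside `X` are added -/
theorem shortsX (hc : St_contract) (hx : St_circEx) (hcy : St_cyc) (src dst : E → V)
    (F : Finset E) (hF : Built src dst F) (X : Finset V) (hX : Disjoint (crs src dst X) F)
    (hdim : finrank (ZMod 2) (ZF src dst (ES src dst X)) +
      2 * (X.image (comp src dst F)).card ≤
        63 + finrank (ZMod 2) (Submodule.span (ZMod 2) (shorts src dst X : Set (E → ZMod 2)) ⊔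
          ZF src dst (F ∩ ES src dst X) : Submodule (ZMod 2) (E → ZMod 2)))
    (hb : Br src dst ∅ ∅) : FlowOn src dst ∅ ∅ := by
  classical
  set F' := F ∪ (shorts src dst X).biUnion spt with hF'
  have h1 : Built src dst F' := built_fold hF _ (fun x hx => by
    rw [mem_shorts] at hx
    exact ⟨hx.1.2, hx.2⟩)
  have hnew : ∀ e ∈ F', e ∉ F → e ∈ ES src dst X := by
    intro e he heF
    rcases mem_union.mp he with h | h
    · exact absurd h heF
    · obtain ⟨x, hx, hxe⟩ := mem_biUnion.mp h
      rw [mem_shorts] at hx
      by_contra h2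
      exact (mem_spt x e).mp hxe (hx.1.1 e h2)
  have hX' : Disjoint (crs src dst X) F' := by
    rw [disjoint_left]
    intro e he heF'
    by_cases heF : e ∈ F
    · exact (disjoint_left.1 hX) he heF
    · have h2 := hnew e heF' heF
      unfold ES at h2
      rw [mem_filter] at h2
      rw [mem_crs] at he
      exact he ⟨fun h => absurd h h2.2.2.1, fun h => absurd h h2.2.2.2⟩
  have himg : X.image (comp src dst F') = X.image (comp src dst F) := by
    refine image_congr fun x hxX => ?_
    refine comp_congr subset_union_left hX' (fun e he hs => ?_) hxX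
    by_contra heF
    have h2 := hnew e he heF
    unfold ES at h2
    rw [mem_filter] at h2
    exact h2.2.2.1 hs
  refine general hc hx hcy src dst F' h1 X hX' ?_ hb
  rw [himg]
  refine hdim.trans (Nat.add_le_add_left (Submodule.finrank_mono ?_) _)
  rw [sup_le_iff]
  constructor
  · rw [Submodule.span_le]
    intro x hx
    have hx' := (mem_shorts src dst X x).mp hx
    refine ⟨fun e he => ?_, hx'.1.2⟩
    by_contra h
    apply he
    rw [mem_inter]
    refine ⟨mem_union_right _ (mem_biUnion.mpr ⟨x, hx, (mem_spt x e).mpr h⟩), ?_⟩
    by_contra h2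
    exact h (hx'.1.1 e h2)
  · intro x hx
    refine ⟨fun e he => hx.1 e (fun h => he ?_), hx.2⟩
    rw [mem_inter] at h ⊢
    exact ⟨mem_union_left _ h.1, h.2⟩

/-- induced circuits -/
theorem inducedX (hc : St_contract) (hx : St_circEx) (hcy : St_cyc) (src dst : E → V)
    (F : Finset E) (hF : Built src dst F) (X : Finset V) (hX : Disjoint (crs src dst X) F)
    (hs : (X.image (comp src dst F)).card ≤ 31)
    (hind : ∀ (k : ℕ) (v : Fin (k + 2) → V) (ed : Fin (k + 2) → E), Function.Injective v →
      Function.Injective ed → (∀ i, Jn src dst (ed i) (v i) (v (i + 1))) → (∀ i, v i ∉ X) →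
      IsInduced src dst v → k + 2 ≤ 11)
    (hb : Br src dst ∅ ∅) : FlowOn src dst ∅ ∅ := by
  classical
  refine shortsX hc hx hcy src dst F hF X hX ?_ hb
  have h1 : ZF src dst (ES src dst X) ≤
      Submodule.span (ZMod 2) (shorts src dst X : Set (E → ZMod 2)) ⊔
        ZF src dst (F ∩ ES src dst X) :=
    fun x hxZ => Submodule.mem_sup_left (span_shorts hx src dst X hind _ x hxZ rfl)
  have h2 := Submodule.finrank_mono h1
  omega

end Pool.Agent.K3h16.SC
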